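import Pool.Agent.helper56.P2B.SpecD

/-!
# p2b:MXL (MP_70a088_an, P2, block B): (M) in the limit (helper11)
-/

set_option autoImplicit false

open Complex Metric Set Filter Topology MeasureTheory
open Pool.Agent.helper98.ILF
open WP (it)
open HY (UD T S hd UN RM)
open PM
open PL (TP LO PZ GJ INR PG DK ht tr DI CY SUBH hG hq BJ)
open P2 (SS FLS FL CLS FR TL)

noncomputable section

namespace P2B

theorem MXL (hDEN : DEN_stmt) (hTLX : P2.TLX_stmt) (hDIC : P2.DIC_stmt) : MXL_stmt := by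
  intro f R hS μ x₀ hTP x hx U H χ hU hFL hFR hM ζ₀ hζ₀ hlt
  obtain ⟨G, hG⟩ := hTLX f R hS x hx U H χ hFR (fun _ => 0) (Eventually.of_forall fun _ => Nat.zero_le _)
  have hDEN' := hDEN f R hS μ x₀ hTP x hx U H hFL ζ₀
  set s : ℕ → ℝ := fun j => cr (VC f R (H j) (x j)) (x j) with hs
  -- nearest points of the Julia set
  have hne : ∀ j, ∃ z ∈ JJ f, ∀ z' ∈ JJ f, ‖z - PZ f R (x j) (H j) ζ₀‖ ≤ ‖z' - PZ f R (x j) (H j) ζ₀‖ := by
    intro j
    obtain ⟨z, hz, hz2⟩ := hS.Jc.exists_isMinOn (f := fun z : ℂ => ‖z - PZ f R (x j) (H j) ζ₀‖) ⟨x j, hx j⟩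
      (by fun_prop)
    exact ⟨z, hz, fun z' hz' => hz2 hz'⟩
  choose z hzJ hzmin using hne
  have hs0 : ∀ᶠ j in (U : Filter ℕ), 0 < s j := by
    filter_upwards [hDEN' 1 one_pos] with j hj
    obtain ⟨z', -, hz'⟩ := hj
    have h0 := lt_of_le_of_lt (norm_nonneg _) hz'
    simpa [hs] using h0
  have hzd : ∀ ρ : ℝ, 0 < ρ → ∀ᶠ j in (U : Filter ℕ), ‖z j - PZ f R (x j) (H j) ζ₀‖ < ρ * s j := by
    intro ρ hρ
    filter_upwards [hDEN' ρ hρ] with j hj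
    obtain ⟨z', hz', hz''⟩ := hj
    exact lt_of_le_of_lt (hzmin j z' hz') hz''
  set ζ : ℕ → ℂ := fun j => (z j - x j) / (s j : ℂ) with hζ
  have hPZ : ∀ᶠ j in (U : Filter ℕ), PZ f R (x j) (H j) (ζ j) = z j := by
    filter_upwards [hs0] with j hj
    have hne : (s j : ℂ) ≠ 0 := by exact_mod_cast hj.ne'
    show x j + (s j : ℂ) * ((z j - x j) / (s j : ℂ)) = z j
    field_simp
    ring
  have hζd : ∀ᶠ j in (U : Filter ℕ), s j * ‖ζ j - ζ₀‖ = ‖z j - PZ f R (x j) (H j) ζ₀‖ := by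
    filter_upwards [hs0, hPZ] with j hj hP
    rw [← hP]
    show s j * ‖ζ j - ζ₀‖ = ‖(x j + (s j : ℂ) * ζ j) - (x j + (s j : ℂ) * ζ₀)‖
    have : (x j + (s j : ℂ) * ζ j) - (x j + (s j : ℂ) * ζ₀) = (s j : ℂ) * (ζ j - ζ₀) := by ring
    rw [this, norm_mul, Complex.norm_real, Real.norm_eq_abs, abs_of_pos hj]
  have htend : Tendsto ζ U (𝓝 ζ₀) := by
    rw [Metric.tendsto_nhds]
    intro ε hε
    filter_upwards [hs0, hζd, hzd ε hε] with j hj h1 h2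
    rw [dist_eq_norm]
    rw [← h1, mul_comm ε] at h2
    exact lt_of_mul_lt_mul_left h2 hj.le
  obtain ⟨hmem, hcr, -⟩ := hDIC f R hS x hx U H χ hFR (fun _ => 0) G hG ζ ζ₀ hζ₀ htend
  have hn4 : ∀ᶠ j in (U : Filter ℕ), ‖ζ j‖ < 4 := by
    have h1 : Tendsto (fun j => ‖ζ j‖) U (𝓝 ‖ζ₀‖) := htend.norm
    exact h1.eventually (gt_mem_nhds hlt)
  refine le_of_tendsto hcr ?_
  filter_upwards [hs0, hPZ, hmem, hn4, hM] with j hj hP hm h4 hM'
  rw [hP] at hm ⊢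
  have hzx : ‖z j - x j‖ ≤ 4 * cr (VC f R (H j) (x j)) (x j) := by
    have : z j - x j = (s j : ℂ) * ζ j := by
      rw [← hP]
      show x j + (s j : ℂ) * ζ j - x j = _
      ring
    rw [this, norm_mul, Complex.norm_real, Real.norm_eq_abs, abs_of_pos hj]
    show s j * ‖ζ j‖ ≤ 4 * s j
    nlinarith
  have h5 := hM' (z j) (hzJ j) hm hzx
  rw [div_le_iff₀ hj]
  exact h5

end P2B
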